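import Pool.Agent.Helper39.HT.Defs

/-!
TH-V, target HT, block 1 (prover: helper65). Closure under commutators. Sections 1 and 2 of the memo.
-/

set_option autoImplicit false

namespace Pool.Agent.Helper39.HT

variable {G : Type*} [Group G]

private lemma canc {x : G} (hx : x * x = 1) (w : G) : x * (x * w) = w := by
  rw [← mul_assoc, hx, one_mul]

private lemma cm_symm {x y : G} (hx : x * x = 1) (hy : y * y = 1) (h : cm x y * cm x y = 1) :
    cm y x = cm x y := by
  have h1 : cm y x * cm x y = 1 := by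
    unfold cm
    simp only [mul_assoc, canc hx, canc hy, hy]
  calc cm y x = cm y x * (cm x y * cm x y) := by rw [h, mul_one]
    _ = cm x y := by rw [← mul_assoc, h1, one_mul]

private lemma cm_comm_left {x y : G} (hx : x * x = 1) (hy : y * y = 1) (h : cm x y * cm x y = 1) :
    Commute (cm x y) x := by
  show cm x y * x = x * cm x y
  rw [← cm_symm hx hy h]
  have e : cm y x * x = y * x * y := by
    unfold cm
    simp only [mul_assoc, hx, mul_one]
  rw [e, cm_symm hx hy h]
  unfold cm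
  simp only [mul_assoc, canc hx]

private lemma cm_comm_right {x y : G} (hx : x * x = 1) (hy : y * y = 1) (h : cm x y * cm x y = 1) :
    Commute (cm x y) y := by
  have h2 : cm y x * cm y x = 1 := by rw [cm_symm hx hy h, h]
  have h3 := cm_comm_left hy hx h2
  rwa [cm_symm hx hy h] at h3

private lemma conj_comm {z a b : G} (hz : z * z = 1) (h : Commute a (z * b * z)) :
    Commute (z * a * z) b := by
  have h1 : a * (z * b * z) = (z * b * z) * a := h
  show z * a * z * b = b * (z * a * z)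
  calc z * a * z * b = z * (a * (z * b * z)) * z := by
        simp only [mul_assoc, hz, mul_one]
    _ = z * ((z * b * z) * a) * z := by rw [h1]
    _ = b * (z * a * z) := by
        simp only [mul_assoc, canc hz]

private lemma conj_both {z a b : G} (hz : z * z = 1) (h : Commute a b) :
    Commute (z * a * z) (z * b * z) := by
  have h1 : a * b = b * a := h
  show z * a * z * (z * b * z) = z * b * z * (z * a * z)
  calc z * a * z * (z * b * z) = z * (a * b) * z := by simp only [mul_assoc, canc hz]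
    _ = z * (b * a) * z := by rw [h1]
    _ = _ := by simp only [mul_assoc, canc hz]

private lemma of_mul_left {a b c : G} (ha : Commute a c) (h : Commute (a * b) c) : Commute b c := by
  have h1 : b = a⁻¹ * (a * b) := by group
  rw [h1]
  exact ha.inv_left.mul_left h

private lemma of_mul_right {a b c : G} (ha : Commute b c) (h : Commute (a * b) c) : Commute a c := by
  have h1 : a = a * b * b⁻¹ := by group
  rw [h1]
  exact h.mul_left ha.inv_left

private lemma inv_cm {a b : G} (ha : a * a = 1) (hb : b * b = 1) (h : Commute a b) : cm a b = 1 := by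
  have h1 : a * b = b * a := h
  unfold cm
  calc a * b * (a * b) = a * b * (b * a) := by rw [h1]
    _ = 1 := by simp only [mul_assoc, canc hb, ha]

private lemma prod_sq {a b : G} (ha : a * a = 1) (hb : b * b = 1) (h : Commute a b) :
    a * b * (a * b) = 1 := inv_cm ha hb h

private structure T3 (x y z : G) : Prop where
  x2 : x * x = 1
  y2 : y * y = 1
  z2 : z * z = 1
  xy : cm x y * cm x y = 1
  xz : cm x z * cm x z = 1
  yz : cm y z * cm y z = 1
  wx : Commute (cm x y) (cm x z)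
  wy : Commute (cm y x) (cm y z)
  wz : Commute (cm z x) (cm z y)

private lemma T3.s12 {x y z : G} (h : T3 x y z) : T3 y x z := by
  refine ⟨h.y2, h.x2, h.z2, ?_, h.yz, h.xz, h.wy, h.wx, h.wz.symm⟩
  rw [cm_symm h.x2 h.y2 h.xy, h.xy]

private lemma T3.s23 {x y z : G} (h : T3 x y z) : T3 x z y := by
  refine ⟨h.x2, h.z2, h.y2, h.xz, h.xy, ?_, h.wx.symm, h.wz, h.wy⟩
  rw [cm_symm h.y2 h.z2 h.yz, h.yz]

private lemma T3.zfz_x {x y z : G} (h : T3 x y z) : Commute (z * cm x y * z) x := by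
  apply conj_comm h.z2
  have h1 : x * cm x z = z * x * z := by
    unfold cm
    simp only [mul_assoc, canc h.x2]
  rw [← h1]
  exact (cm_comm_left h.x2 h.y2 h.xy).mul_right h.wx

private lemma T3.zfz_y {x y z : G} (h : T3 x y z) : Commute (z * cm x y * z) y := by
  have h1 := h.s12.zfz_x
  rwa [cm_symm h.x2 h.y2 h.xy] at h1

private lemma comm_cm {a x y : G} (hx : Commute a x) (hy : Commute a y) : Commute a (cm x y) := by
  unfold cm
  exact (hx.mul_right hy).mul_right (hx.mul_right hy)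

private lemma T3.zfz_f {x y z : G} (h : T3 x y z) : Commute (z * cm x y * z) (cm x y) :=
  comm_cm h.zfz_x h.zfz_y

private lemma d_eq (f z : G) : cm f z = f * (z * f * z) := by
  unfold cm
  simp only [mul_assoc]

private lemma zfz_sq {f z : G} (hf : f * f = 1) (hz : z * z = 1) : (z * f * z) * (z * f * z) = 1 := by
  simp only [mul_assoc, canc hz]
  rw [← mul_assoc f, hf, one_mul, hz]

private lemma T3.d_sq {x y z : G} (h : T3 x y z) : cm (cm x y) z * cm (cm x y) z = 1 := by
  rw [d_eq]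
  exact prod_sq h.xy (zfz_sq h.xy h.z2) h.zfz_f.symm

private lemma T3.d_x {x y z : G} (h : T3 x y z) : Commute (cm (cm x y) z) x := by
  rw [d_eq]
  exact (cm_comm_left h.x2 h.y2 h.xy).mul_left h.zfz_x

private lemma T3.d_y {x y z : G} (h : T3 x y z) : Commute (cm (cm x y) z) y := by
  rw [d_eq]
  exact (cm_comm_right h.x2 h.y2 h.xy).mul_left h.zfz_y

private lemma T3.d_z {x y z : G} (h : T3 x y z) : Commute (cm (cm x y) z) z := by
  have h1 : z * cm x y * z * cm x y = cm x y * (z * cm x y * z) := h.zfz_f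
  show cm (cm x y) z * z = z * cm (cm x y) z
  rw [d_eq]
  calc cm x y * (z * cm x y * z) * z = z * cm x y * z * cm x y * z := by rw [h1]
    _ = z * (cm x y * (z * cm x y * z)) := by simp only [mul_assoc]

/-- conjugation of a commutator by the third letter -/
private lemma T3.e1 {x y z : G} (h : T3 x y z) : z * cm x y * z = cm x y * cm (cm x y) z := by
  rw [d_eq (cm x y) z, ← mul_assoc (cm x y), h.xy, one_mul]

private lemma T3.e2 {x y z : G} (h : T3 x y z) : cm (z * x * z) y = cm (cm x z) y * cm x y := by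
  have h1 : z * x * z = x * cm x z := by
    unfold cm
    simp only [mul_assoc, canc h.x2]
  have hc := h.s23
  set k := cm x z with hk
  have hkx : Commute k x := cm_comm_left h.x2 h.z2 h.xz
  have hcy : cm k y * y = k * y * k := by
    unfold cm
    simp only [mul_assoc, h.y2, mul_one]
  have hcx : Commute (cm k y) x := hc.d_x
  calc cm (z * x * z) y = cm (x * k) y := by rw [h1]
    _ = x * k * y * (x * k) * y := by unfold cm; simp only [mul_assoc]
    _ = x * k * y * (k * x) * y := by rw [hkx.eq]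
    _ = x * (k * y * k) * x * y := by simp only [mul_assoc]
    _ = x * (cm k y * y) * x * y := by rw [hcy]
    _ = (x * cm k y) * (y * x * y) := by simp only [mul_assoc]
    _ = (cm k y * x) * (y * x * y) := by rw [hcx.eq]
    _ = cm k y * cm x y := by
      show cm k y * x * (y * x * y) = cm k y * (x * y * (x * y))
      simp only [mul_assoc]

private lemma T3.e3 {x y z : G} (h : T3 x y z) :
    cm x (z * y * z) = cm (cm x z) y * (cm x y * cm (cm x y) z) := by
  have h1 : cm x (z * y * z) = z * cm (z * x * z) y * z := by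
    unfold cm
    simp only [mul_assoc, canc h.z2]
  have hcz : Commute (cm (cm x z) y) z := h.s23.d_y
  rw [h1, h.e2]
  calc z * (cm (cm x z) y * cm x y) * z = (z * cm (cm x z) y) * (cm x y * z) := by
        simp only [mul_assoc]
    _ = (cm (cm x z) y * z) * (cm x y * z) := by rw [hcz.eq]
    _ = cm (cm x z) y * (z * cm x y * z) := by simp only [mul_assoc]
    _ = _ := by rw [h.e1]

private lemma T3.e3_y {x y z : G} (h : T3 x y z) : Commute (cm x (z * y * z)) y := by
  rw [h.e3]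
  exact h.s23.d_z.mul_left ((cm_comm_right h.x2 h.y2 h.xy).mul_left h.d_y)

private lemma T3.e4 {x y z : G} (h : T3 x y z) : cm x (cm y z) = cm x y * cm x (z * y * z) := by
  have hg : cm y z = y * (z * y * z) := d_eq y z
  have hy' : (z * y * z) * (z * y * z) = 1 := zfz_sq h.y2 h.z2
  have hyy : Commute (z * y * z) y := by
    have h1 := cm_comm_left h.y2 h.z2 h.yz
    rw [hg] at h1
    exact of_mul_left (Commute.refl y) h1
  set y' := z * y * z with hy'def
  have h2 : cm x y * y = x * y * x := by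
    unfold cm
    simp only [mul_assoc, h.y2, mul_one]
  have h3 : cm x y' * y' = x * y' * x := by
    unfold cm
    simp only [mul_assoc, hy', mul_one]
  have h4 : Commute (cm x y') y := h.e3_y
  calc cm x (cm y z) = x * y * (y' * x) * (y * y') := by
        rw [hg]
        unfold cm
        simp only [mul_assoc]
    _ = (x * y * x) * (x * y' * x) * (y * y') := by simp only [mul_assoc, canc h.x2]
    _ = (cm x y * y) * (cm x y' * y') * (y * y') := by rw [h2, h3]
    _ = cm x y * (y * cm x y') * (y' * y * y') := by simp only [mul_assoc]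
    _ = cm x y * (cm x y' * y) * (y * y' * y') := by rw [h4.eq, hyy.eq]
    _ = cm x y * cm x y' := by simp only [mul_assoc, hy', h.y2, mul_one]

private lemma T3.jac' {x y z : G} (h : T3 x y z) :
    cm x (cm y z) = cm (cm x y) z * cm (cm x z) y := by
  have hcd : Commute (cm (cm x z) y) (cm (cm x y) z) := by
    apply comm_cm
    · exact comm_cm h.s23.d_x h.s23.d_z
    · exact h.s23.d_y
  have hcf : Commute (cm (cm x z) y) (cm x y) := comm_cm h.s23.d_x h.s23.d_z
  rw [h.e4, h.e3]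
  calc cm x y * (cm (cm x z) y * (cm x y * cm (cm x y) z))
      = (cm x y * cm (cm x z) y) * (cm x y * cm (cm x y) z) := by simp only [mul_assoc]
    _ = (cm (cm x z) y * cm x y) * (cm x y * cm (cm x y) z) := by rw [hcf.eq]
    _ = cm (cm x z) y * cm (cm x y) z := by simp only [mul_assoc, canc h.xy]
    _ = _ := hcd.eq

private lemma cm_conj (g x y : G) : g * cm x y * g⁻¹ = cm (g * x * g⁻¹) (g * y * g⁻¹) := by
  unfold cm
  group

/-- the middle part of Lemma L -/
private lemma half_w {p q a b : G} (hp : T3 p a b) (hq : T3 q a b) (h1 : T3 p q a)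
    (h2 : T3 (b * p * b) q a) (h3 : T3 p (b * q * b) a) (h4 : T3 (b * p * b) (b * q * b) a) :
    Commute (cm (cm p b) a) (cm (cm q b) a) ∧ Commute (cm (cm p a) b) (cm (cm q b) a) ∧
      Commute (cm (cm p b) a) (cm (cm q a) b) := by
  have key : ∀ {p' q' : G}, T3 p' q' a → Commute (cm p' a) (cm q' a) := by
    intro p' q' h
    have h5 := h.wz
    have e1 : cm a p' = cm p' a := cm_symm h.x2 h.z2 h.xz
    have e2 : cm a q' = cm q' a := cm_symm h.y2 h.z2 h.yz
    rwa [e1, e2] at h5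
  have k1 := key h1
  have k2 := key h2
  have k3 := key h3
  have k4 := key h4
  rw [hp.e2] at k2 k4
  rw [hq.e2] at k3 k4
  -- `p_ba` commutes with `q_a`
  have c1 : Commute (cm (cm p b) a) (cm q a) := of_mul_right k1 k2
  -- `p_a` commutes with `q_ba`
  have c2 : Commute (cm p a) (cm (cm q b) a) := (of_mul_right k1.symm k3.symm).symm
  -- `p_ba p_a` commutes with `q_ba`
  have c3 : Commute (cm (cm p b) a * cm p a) (cm (cm q b) a) :=
    (of_mul_right k2.symm k4.symm).symm
  have c4 : Commute (cm (cm p b) a) (cm (cm q b) a) := of_mul_right c2 c3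
  have hb := hp.z2
  have pb : b * cm (cm p b) a * b = cm (cm p b) a := by
    have h5 : Commute (cm (cm p b) a) b := hp.s23.d_y
    rw [← h5.eq, mul_assoc, hb, mul_one]
  have qb : b * cm (cm q b) a * b = cm (cm q b) a := by
    have h5 : Commute (cm (cm q b) a) b := hq.s23.d_y
    rw [← h5.eq, mul_assoc, hb, mul_one]
  refine ⟨c4, ?_, ?_⟩
  · have h5 := conj_both hb c2
    rw [hp.e1, qb] at h5
    exact of_mul_left c2 h5
  · have h5 := conj_both hb c1
    rw [hq.e1, pb] at h5
    exact (of_mul_left c1.symm h5.symm).symm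

private lemma cm_p_u {p q a b : G} (hp : T3 p a b) (h1 : T3 p q a) (h5 : T3 p q (b * a * b)) :
    Commute (cm p q) (cm p (cm a b)) := by
  rw [hp.e4]
  exact h1.wx.mul_right h5.wx

private lemma cm_pu_sq {p a b : G} (hp : T3 p a b) : cm p (cm a b) * cm p (cm a b) = 1 := by
  rw [hp.jac']
  apply prod_sq hp.d_sq hp.s23.d_sq
  apply comm_cm
  · exact comm_cm hp.d_x hp.d_z
  · exact hp.d_y

private lemma lemL {P Q D : Set G} (hP : ∀ g : G, ∀ x ∈ P, g * x * g⁻¹ ∈ P)
    (hQ : ∀ g : G, ∀ x ∈ Q, g * x * g⁻¹ ∈ Q) (hD : ∀ g : G, ∀ x ∈ D, g * x * g⁻¹ ∈ D)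
    (h1 : ∀ p ∈ P, ∀ q ∈ Q, ∀ x ∈ D, T3 p q x) (h2 : ∀ p ∈ P, ∀ x ∈ D, ∀ y ∈ D, T3 p x y)
    (h3 : ∀ q ∈ Q, ∀ x ∈ D, ∀ y ∈ D, T3 q x y) (p : G) (hp : p ∈ P) (q : G) (hq : q ∈ Q)
    (a : G) (ha : a ∈ D) (b : G) (hb : b ∈ D) : T3 p q (cm a b) := by
  have ta := h2 p hp a ha b hb
  have tb := h3 q hq a ha b hb
  have inv : ∀ {z : G}, z * z = 1 → z⁻¹ = z := fun h => inv_eq_of_mul_eq_one_right h
  have cj : ∀ {z x : G} {S : Set G}, z * z = 1 → (∀ g : G, ∀ x ∈ S, g * x * g⁻¹ ∈ S) → x ∈ S →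
      z * x * z ∈ S := by
    intro z x S hz hS hx
    have h5 := hS z x hx
    rwa [inv hz] at h5
  have a2 := ta.y2
  have b2 := ta.z2
  have pqa := h1 p hp q hq a ha
  refine ⟨ta.x2, tb.x2, ta.yz, pqa.xy, cm_pu_sq ta, cm_pu_sq tb, ?_, ?_, ?_⟩
  · exact cm_p_u ta pqa (h1 p hp q hq _ (cj b2 hD ha))
  · exact cm_p_u tb pqa.s12 (h1 p hp q hq _ (cj b2 hD ha)).s12
  · rw [cm_symm ta.x2 ta.yz (cm_pu_sq ta), cm_symm tb.x2 tb.yz (cm_pu_sq tb), ta.jac', tb.jac']
    obtain ⟨u1, u2, u3⟩ := half_w ta tb pqa (h1 _ (cj b2 hP hp) q hq a ha)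
      (h1 p hp _ (cj b2 hQ hq) a ha) (h1 _ (cj b2 hP hp) _ (cj b2 hQ hq) a ha)
    obtain ⟨v1, -, -⟩ := half_w ta.s23 tb.s23 (h1 p hp q hq b hb) (h1 _ (cj a2 hP hp) q hq b hb)
      (h1 p hp _ (cj a2 hQ hq) b hb) (h1 _ (cj a2 hP hp) _ (cj a2 hQ hq) b hb)
    exact (v1.mul_right u2).mul_left (u3.mul_right u1)

private lemma Strong.t3 {D : Set G} (h : Strong D) {x y z : G} (hx : x ∈ D) (hy : y ∈ D)
    (hz : z ∈ D) : T3 x y z :=
  ⟨h.inv x hx, h.inv y hy, h.inv z hz, h.four x hx y hy, h.four x hx z hz, h.four y hy z hz,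
    h.w x hx y hy z hz, h.w y hy x hx z hz, h.w z hz x hx y hy⟩

private lemma strong_of_t3 {D : Set G} (h1 : (1 : G) ∈ D) (hc : ∀ g : G, ∀ x ∈ D, g * x * g⁻¹ ∈ D)
    (h : ∀ x ∈ D, ∀ y ∈ D, ∀ z ∈ D, T3 x y z) : Strong D :=
  ⟨h1, fun x hx => (h x hx x hx x hx).x2, hc, fun x hx y hy => (h x hx y hy x hx).xy,
    fun x hx y hy z hz => (h x hx y hy z hz).wx⟩

private def UU (D : Set G) : Set G := {z | ∃ x ∈ D, ∃ y ∈ D, z = cm x y}

private lemma UU_conj {D : Set G} (h : Strong D) : ∀ g : G, ∀ x ∈ UU D, g * x * g⁻¹ ∈ UU D := by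
  rintro g z ⟨x, hx, y, hy, rfl⟩
  exact ⟨_, h.conj g x hx, _, h.conj g y hy, cm_conj g x y⟩

/-- Lemma L three times: `D ∪ [D, D]` is strong. -/
theorem strong_succ (D : Set G) (h : Strong D) :
    Strong (D ∪ {z | ∃ x ∈ D, ∃ y ∈ D, z = cm x y}) := by
  have t0 : ∀ x ∈ D, ∀ y ∈ D, ∀ z ∈ D, T3 x y z := fun x hx y hy z hz => h.t3 hx hy hz
  have t1 : ∀ x ∈ D, ∀ y ∈ D, ∀ u ∈ UU D, T3 x y u := by
    rintro x hx y hy u ⟨a, ha, b, hb, rfl⟩
    exact lemL h.conj h.conj h.conj t0 t0 t0 x hx y hy a ha b hb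
  have t2 : ∀ u ∈ UU D, ∀ y ∈ D, ∀ v ∈ UU D, T3 u y v := by
    rintro u hu y hy v ⟨a, ha, b, hb, rfl⟩
    exact lemL (UU_conj h) h.conj h.conj (fun p hp q hq x hx => (t1 q hq x hx p hp).s23.s12)
      (fun p hp x hx y hy => (t1 x hx y hy p hp).s23.s12) t0 u hu y hy a ha b hb
  have t3 : ∀ u ∈ UU D, ∀ v ∈ UU D, ∀ w ∈ UU D, T3 u v w := by
    rintro u hu v hv w ⟨a, ha, b, hb, rfl⟩
    exact lemL (UU_conj h) (UU_conj h) h.conj (fun p hp q hq x hx => (t2 p hp x hx q hq).s23)
      (fun p hp x hx y hy => (t1 x hx y hy p hp).s23.s12)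
      (fun p hp x hx y hy => (t1 x hx y hy p hp).s23.s12) u hu v hv a ha b hb
  apply strong_of_t3
  · exact Or.inl h.one
  · rintro g x (hx | hx)
    · exact Or.inl (h.conj g x hx)
    · exact Or.inr (UU_conj h g x hx)
  · rintro x (hx | hx) y (hy | hy) z (hz | hz)
    · exact t0 x hx y hy z hz
    · exact t1 x hx y hy z hz
    · exact (t1 x hx z hz y hy).s23
    · exact (t2 y hy x hx z hz).s12
    · exact (t1 y hy z hz x hx).s23.s12
    · exact t2 x hx y hy z hz
    · exact (t2 x hx z hz y hy).s23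
    · exact t3 x hx y hy z hz

/-- the union of the chain `D, D ∪ [D, D], ...` -/
theorem exists_closed (D : Set G) (h : Strong D) :
    ∃ D' : Set G, D ⊆ D' ∧ Strong D' ∧ Closed D' := by
  have hmem : ∀ n : ℕ, Strong ((fun E : Set G => E ∪ {z | ∃ x ∈ E, ∃ y ∈ E, z = cm x y})^[n] D) := by
    intro n
    induction n with
    | zero => exact h
    | succ n ih =>
      rw [Function.iterate_succ_apply']
      exact strong_succ _ ih
  set S : ℕ → Set G := fun n => (fun E : Set G => E ∪ {z | ∃ x ∈ E, ∃ y ∈ E, z = cm x y})^[n] D with hS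
  have hsucc : ∀ n, S (n + 1) = S n ∪ {z | ∃ x ∈ S n, ∃ y ∈ S n, z = cm x y} := by
    intro n
    simp only [hS]
    rw [Function.iterate_succ_apply']
  have hmono : Monotone S := by
    apply monotone_nat_of_le_succ
    intro n
    rw [hsucc]
    exact Set.subset_union_left
  have hst : ∀ n, Strong (S n) := hmem
  have hU : ∀ {x : G}, x ∈ ⋃ n, S n → ∃ n, ∀ m, n ≤ m → x ∈ S m := by
    intro x hx
    obtain ⟨n, hn⟩ := Set.mem_iUnion.mp hx
    exact ⟨n, fun m hm => hmono hm hn⟩
  have ht : ∀ x ∈ ⋃ n, S n, ∀ y ∈ ⋃ n, S n, ∀ z ∈ ⋃ n, S n, T3 x y z := by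
    intro x hx y hy z hz
    obtain ⟨n1, h1⟩ := hU hx
    obtain ⟨n2, h2⟩ := hU hy
    obtain ⟨n3, h3⟩ := hU hz
    exact (hst (n1 + n2 + n3)).t3 (h1 _ (by omega)) (h2 _ (by omega)) (h3 _ (by omega))
  have h1 : (1 : G) ∈ ⋃ n, S n := Set.mem_iUnion.mpr ⟨0, h.one⟩
  refine ⟨⋃ n, S n, fun x hx => Set.mem_iUnion.mpr ⟨0, hx⟩, strong_of_t3 h1 ?_ ht, ?_⟩
  · intro g x hx
    obtain ⟨n, hn⟩ := Set.mem_iUnion.mp hx
    exact Set.mem_iUnion.mpr ⟨n, (hst n).conj g x hn⟩
  · refine ⟨h1, fun x hx => (ht x hx x hx x hx).x2, ?_, ?_, fun x hx y hy z hz => (ht x hx y hy z hz).jac',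
      ?_⟩
    · intro x hx y hy
      obtain ⟨n1, h1⟩ := hU hx
      obtain ⟨n2, h2⟩ := hU hy
      refine Set.mem_iUnion.mpr ⟨n1 + n2 + 1, ?_⟩
      rw [hsucc]
      exact Or.inr ⟨x, h1 _ (by omega), y, h2 _ (by omega), rfl⟩
    · intro x hx y hy
      have h2 := ht x hx y hy x hx
      exact inv_cm h2.xy h2.y2 (cm_comm_right h2.x2 h2.y2 h2.xy)
    · intro x hx y hy z hz
      have h2 := ht x hx y hy z hz
      exact inv_cm h2.d_sq h2.y2 h2.d_y

end Pool.Agent.Helper39.HT
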