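import Mathlib

/-!
TH-V (MP_2c326f_al), target HT: definitions.  Text: /team-store/memo_MP_2c326f_HT_proof_helper39.md.
-/

set_option autoImplicit false

namespace Pool.Agent.Helper39.HT

variable {G : Type*} [Group G]

/-- the commutator of two involutions, `(x y)^2` -/
def cm (x y : G) : G := x * y * (x * y)

/-- A normal set of involutions (the unit may belong to it) all of whose triples generate a group of class at most 3. -/
structure Strong (D : Set G) : Prop where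
  one : (1 : G) ∈ D
  inv : ∀ x ∈ D, x * x = 1
  conj : ∀ g : G, ∀ x ∈ D, g * x * g⁻¹ ∈ D
  four : ∀ x ∈ D, ∀ y ∈ D, cm x y * cm x y = 1
  w : ∀ x ∈ D, ∀ y ∈ D, ∀ z ∈ D, Commute (cm x y) (cm x z)

/-- What the word argument uses. -/
structure Closed (D : Set G) : Prop where
  one : (1 : G) ∈ D
  inv : ∀ x ∈ D, x * x = 1
  cm_mem : ∀ x ∈ D, ∀ y ∈ D, cm x y ∈ D
  cl2 : ∀ x ∈ D, ∀ y ∈ D, cm (cm x y) y = 1
  jac : ∀ x ∈ D, ∀ y ∈ D, ∀ z ∈ D, cm x (cm y z) = cm (cm x y) z * cm (cm x z) y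
  cl3 : ∀ x ∈ D, ∀ y ∈ D, ∀ z ∈ D, cm (cm (cm x y) z) y = 1

end Pool.Agent.Helper39.HT
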