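import Pool.Agent.Helper39.HT.Defs
import Pool.Agent.Helper40.KZ.Unavoid
import Pool.Agent.Helper40.KZ.Factor

/-!
TH-V, target HT, block 2 (prover: helper66). The word argument, section 3 of the memo, FINITE version (no infinite words):
`KZ.unavoidable` gives `N` such that every word of length `N` is `Red`. Suppose `1 ≠ c ∈ D`. As the centre is trivial and the `a i` generate,
every `1 ≠ c ∈ D` has `cm c (a j) ≠ 1` for some `j`, so there are non dead words of every length; let `w` be the LARGEST word of length `N`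
(lists of `Fin d` of one length: finitely many) such that `act a c0 w ≠ 1` for some `c0 ∈ D`. `w = l ++ (v ++ (m ++ (v ++ r)))`, `v` Lyndon, `m = []` or Lyndon.
`c := act a c0 l`. EXTEND: if `w'` has length at most `|v m v|` and `w' ++ z > v m v` for all `z` of the complementary length, then `act a c w' = 1`.
LEMMA (`bracket`): for `SW w` there is `b ∈ D` such that for all `c ∈ D`: if `act a c w' = 1` for all `w' > w`, `|w'| = |w|`, then `cm c b = act a c w`.
 Proof for `w = u ++ v`, `u ++ v < v ++ u`, `b = cm b_u b_v`: `jac` gives `cm c b = cm (cm c b_u) b_v * cm (cm c b_v) b_u`. By EXTEND all `w' > u`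
 vanish on `c`, so `cm c b_u = act c u`; `w' > v` vanish on `act c u`, so `cm (act c u) b_v = act c (u ++ v)`. And `cm c b_v = act c v` (if `w' > v` then `w' ++ z > v ++ u > w`),
 `cm (act c v) b_u = act c (v ++ u) = 1` (if `w' > u` then `v ++ w' > v ++ u > w`).
END: `act c (v m v) = cm (cm (cm c b_v) b_m) b_v = 1` by `cl3` (`m = []`: `cl2`), contradiction to `act a c0 w ≠ 1`.
-/

set_option autoImplicit false

namespace Pool.Agent.Helper39.HT

open Pool.Agent.Helper40.KZ

variable {G : Type*} [Group G]

/-- `act a c [i, j, ...] = [c, a i, a j, ...]` -/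
def act {d : ℕ} (a : Fin d → G) (c : G) (w : List (Fin d)) : G := w.foldl (fun x i => cm x (a i)) c

private lemma act_append {d : ℕ} (a : Fin d → G) (c : G) (u v : List (Fin d)) :
    act a c (u ++ v) = act a (act a c u) v := by
  unfold act
  rw [List.foldl_append]

private lemma act_mem {d : ℕ} {a : Fin d → G} {D : Set G} (h : Closed D) (ha : ∀ i, a i ∈ D)
    (w : List (Fin d)) : ∀ c ∈ D, act a c w ∈ D := by
  induction w with
  | nil => exact fun c hc => hc
  | cons i w ih => exact fun c hc => ih _ (h.cm_mem c hc _ (ha i))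

private lemma act_one {d : ℕ} {a : Fin d → G} {D : Set G} (h : Closed D) (ha : ∀ i, a i ∈ D)
    (w : List (Fin d)) : act a 1 w = 1 := by
  induction w with
  | nil => rfl
  | cons i w ih =>
    show act a (cm 1 (a i)) w = 1
    have h1 : cm 1 (a i) = 1 := by
      unfold cm
      rw [one_mul, h.inv _ (ha i)]
    rw [h1, ih]

private lemma ext_one {d : ℕ} {a : Fin d → G} {D : Set G} (h : Closed D) (ha : ∀ i, a i ∈ D)
    (hg : Subgroup.closure (Set.range a) = ⊤) (hZ : Subgroup.center G = ⊥) (c : G) (hc : c ∈ D)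
    (h1 : c ≠ 1) : ∃ j, cm c (a j) ≠ 1 := by
  by_contra hcon
  push Not at hcon
  apply h1
  have h2 : Subgroup.closure (Set.range a) ≤ Subgroup.centralizer {c} := by
    rw [Subgroup.closure_le]
    rintro _ ⟨j, rfl⟩
    rw [SetLike.mem_coe, Subgroup.mem_centralizer_singleton_iff]
    have h3 := hcon j
    unfold cm at h3
    have hc2 : c⁻¹ = c := inv_eq_of_mul_eq_one_right (h.inv c hc)
    have ha2 : (a j)⁻¹ = a j := inv_eq_of_mul_eq_one_right (h.inv _ (ha j))
    have h4 : c * a j = (c * a j)⁻¹ := eq_inv_of_mul_eq_one_left h3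
    rw [mul_inv_rev, hc2, ha2] at h4
    exact h4.symm
  have h3 : c ∈ Subgroup.center G := by
    rw [Subgroup.mem_center_iff]
    intro g
    have h4 : g ∈ Subgroup.centralizer {c} := h2 (hg ▸ Subgroup.mem_top g)
    exact Subgroup.mem_centralizer_singleton_iff.mp h4
  rw [hZ, Subgroup.mem_bot] at h3
  exact h3

private lemma ext_n {d : ℕ} {a : Fin d → G} {D : Set G} (h : Closed D) (ha : ∀ i, a i ∈ D)
    (hg : Subgroup.closure (Set.range a) = ⊤) (hZ : Subgroup.center G = ⊥) (n : ℕ) : ∀ c ∈ D,
    c ≠ 1 → ∃ z : List (Fin d), z.length = n ∧ act a c z ≠ 1 := by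
  induction n with
  | zero => exact fun c _ h1 => ⟨[], rfl, h1⟩
  | succ n ih =>
    intro c hc h1
    obtain ⟨j, hj⟩ := ext_one h ha hg hZ c hc h1
    obtain ⟨z, hz, hz1⟩ := ih _ (h.cm_mem c hc _ (ha j)) hj
    exact ⟨j :: z, by rw [List.length_cons, hz], hz1⟩

private def Top {d : ℕ} (a : Fin d → G) (c : G) (w : List (Fin d)) : Prop :=
  ∀ w' : List (Fin d), w'.length = w.length → w < w' → act a c w' = 1

private lemma Top.suffix {d : ℕ} {a : Fin d → G} {c : G} {u v : List (Fin d)} (h : Top a c (u ++ v)) :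
    Top a (act a c u) v := by
  intro w' hl hlt
  rw [← act_append]
  apply h
  · rw [List.length_append, List.length_append, hl]
  · exact List.append_left_lt hlt

private lemma Top.initial {d : ℕ} {a : Fin d → G} {D : Set G} (hD : Closed D) (ha : ∀ i, a i ∈ D)
    (hg : Subgroup.closure (Set.range a) = ⊤) (hZ : Subgroup.center G = ⊥) {c : G} (hc : c ∈ D)
    {u v : List (Fin d)} (h : Top a c (u ++ v)) : Top a c u := by
  intro w' hl hlt
  by_contra h1
  obtain ⟨z, hz, hz1⟩ := ext_n hD ha hg hZ v.length _ (act_mem hD ha w' c hc) h1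
  apply hz1
  rw [← act_append]
  apply h
  · rw [List.length_append, List.length_append, hl, hz]
  · exact lt_append_of_lt _ _ _ _ hlt hl.le

private lemma bracket {d : ℕ} {a : Fin d → G} {D : Set G} (hD : Closed D) (ha : ∀ i, a i ∈ D)
    (hg : Subgroup.closure (Set.range a) = ⊤) (hZ : Subgroup.center G = ⊥) {w : List (Fin d)}
    (hw : SW w) : ∃ b ∈ D, ∀ c ∈ D, Top a c w → cm c b = act a c w := by
  induction hw with
  | letter i => exact ⟨a i, ha i, fun c _ _ => rfl⟩
  | lie u v _ _ huv ihu ihv =>
    obtain ⟨bu, hbu, hu⟩ := ihu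
    obtain ⟨bv, hbv, hv⟩ := ihv
    refine ⟨cm bu bv, hD.cm_mem _ hbu _ hbv, fun c hc ht => ?_⟩
    have e1 : cm c bu = act a c u := hu c hc (Top.initial hD ha hg hZ hc ht)
    have e2 : cm (act a c u) bv = act a (act a c u) v := hv _ (act_mem hD ha u c hc) ht.suffix
    have t1 : Top a c v := by
      intro w' hl hlt
      by_contra h1
      obtain ⟨z, hz, hz1⟩ := ext_n hD ha hg hZ u.length _ (act_mem hD ha w' c hc) h1
      apply hz1
      rw [← act_append]
      apply ht
      · rw [List.length_append, List.length_append, hl, hz, add_comm]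
      · exact huv.trans (lt_append_of_lt _ _ _ _ hlt hl.le)
    have e3 : cm c bv = act a c v := hv c hc t1
    have t2 : Top a (act a c v) u := by
      intro w' hl hlt
      rw [← act_append]
      apply ht
      · rw [List.length_append, List.length_append, hl, add_comm]
      · exact huv.trans (List.append_left_lt hlt)
    have e4 : cm (act a c v) bu = 1 := by
      rw [hu _ (act_mem hD ha v c hc) t2, ← act_append]
      apply ht
      · rw [List.length_append, List.length_append, add_comm]
      · exact huv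
    rw [hD.jac c hc bu hbu bv hbv, e1, e2, e3, e4, mul_one, act_append]

theorem word_arg {d : ℕ} (a : Fin d → G) (D : Set G) (h : Closed D) (ha : ∀ i, a i ∈ D)
    (hg : Subgroup.closure (Set.range a) = ⊤) (hZ : Subgroup.center G = ⊥) : ∀ c ∈ D, c = 1 := by
  by_contra hcon
  push Not at hcon
  obtain ⟨x, hx, hx1⟩ := hcon
  obtain ⟨N, hN⟩ := unavoidable (α := Fin d)
  let S : Set (List (Fin d)) := {w | w.length = N ∧ ∃ c ∈ D, act a c w ≠ 1}
  have hfin : S.Finite := (List.finite_length_eq (Fin d) N).subset fun w hw => hw.1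
  have hne : S.Nonempty := by
    obtain ⟨z, hz, hz1⟩ := ext_n h ha hg hZ N x hx hx1
    exact ⟨z, hz, x, hx, hz1⟩
  obtain ⟨w, ⟨hwN, c0, hc0, hw1⟩, hmax⟩ := Set.exists_max_image S id hfin hne
  obtain ⟨l, v, m, r, hv, hm, hw⟩ := hN w hwN.ge
  have hc : act a c0 l ∈ D := act_mem h ha l c0 hc0
  have hlen := congrArg List.length hw
  rw [List.length_append] at hlen
  have htop : Top a (act a c0 l) (v ++ (m ++ (v ++ r))) := by
    intro w' hl hlt
    by_contra h1
    rw [← act_append] at h1
    have h2 : l ++ w' ∈ S := ⟨by rw [List.length_append, hl, ← hlen, hwN], c0, hc0, h1⟩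
    have h3 : l ++ w' ≤ w := hmax _ h2
    have h4 : w < l ++ w' := by
      rw [hw]
      exact List.append_left_lt hlt
    exact absurd (h4.trans_le h3) (lt_irrefl _)
  rw [hw, act_append] at hw1
  set c := act a c0 l with hcdef
  obtain ⟨bv, hbv, hbv1⟩ := bracket h ha hg hZ (sw_of_lyn v hv)
  have e1 : cm c bv = act a c v := hbv1 c hc (Top.initial h ha hg hZ hc htop)
  have t1 : Top a (act a c v) (m ++ (v ++ r)) := htop.suffix
  have hc1 : act a c v ∈ D := act_mem h ha v c hc
  apply hw1
  rcases hm with rfl | hm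
  · rw [List.nil_append] at t1 ⊢
    have e2 : cm (act a c v) bv = act a (act a c v) v := hbv1 _ hc1 (Top.initial h ha hg hZ hc1 t1)
    rw [← e1, h.cl2 c hc bv hbv] at e2
    rw [act_append, act_append, ← e1, ← e2, act_one h ha]
  · obtain ⟨bm, hbm, hbm1⟩ := bracket h ha hg hZ (sw_of_lyn m hm)
    have e2 : cm (act a c v) bm = act a (act a c v) m := hbm1 _ hc1 (Top.initial h ha hg hZ hc1 t1)
    have t2 : Top a (act a (act a c v) m) (v ++ r) := t1.suffix
    have hc2 : act a (act a c v) m ∈ D := act_mem h ha m _ hc1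
    have e3 : cm (act a (act a c v) m) bv = act a (act a (act a c v) m) v :=
      hbv1 _ hc2 (Top.initial h ha hg hZ hc2 t2)
    have e4 : cm (cm (cm c bv) bm) bv = 1 := h.cl3 c hc bv hbv bm hbm
    rw [e1, e2, e3] at e4
    rw [act_append, act_append, act_append, e4, act_one h ha]

end Pool.Agent.Helper39.HT
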