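import Pool.Agent.Helper39.HT.Close
import Pool.Agent.Helper39.HT.Word

/-!
TH-V, target HT, block 3 (stub helper39, prover: helper94). Zorn and Schur. `Closed` passes to homomorphic images (`f '' D`).
If the group generated by finitely many elements of `D` is infinite, pass to a quotient all of whose proper quotients are finite (Zorn; `Subgroup.fg_of_index_ne_zero` for the union of a chain);
its centre is trivial (otherwise the centre has finite index and is a finitely generated torsion group by the transfer map `g ↦ g ^ n`, so the group is finite); `word_arg` makes it trivial.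
-/

set_option autoImplicit false

namespace Pool.Agent.Helper39.HT

variable {G : Type*} [Group G]

private theorem map_cm {K : Type*} [Group K] (f : G →* K) (x y : G) :
    f (cm x y) = cm (f x) (f y) := by
  simp [cm]

/-- `Closed` passes to images -/
theorem Closed.image {K : Type*} [Group K] (f : G →* K) {D : Set G} (h : Closed D) :
    Closed (f '' D) := by
  refine ⟨⟨1, h.one, map_one f⟩, ?_, ?_, ?_, ?_, ?_⟩
  · rintro _ ⟨x, hx, rfl⟩
    rw [← map_mul, h.inv x hx, map_one]
  · rintro _ ⟨x, hx, rfl⟩ _ ⟨y, hy, rfl⟩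
    exact ⟨cm x y, h.cm_mem x hx y hy, map_cm f x y⟩
  · rintro _ ⟨x, hx, rfl⟩ _ ⟨y, hy, rfl⟩
    rw [← map_cm, ← map_cm, h.cl2 x hx y hy, map_one]
  · rintro _ ⟨x, hx, rfl⟩ _ ⟨y, hy, rfl⟩ _ ⟨z, hz, rfl⟩
    simp only [← map_cm, ← map_mul]
    rw [h.jac x hx y hy z hz]
  · rintro _ ⟨x, hx, rfl⟩ _ ⟨y, hy, rfl⟩ _ ⟨z, hz, rfl⟩
    simp only [← map_cm]
    rw [h.cl3 x hx y hy z hz, map_one]

private theorem coe_cm (H : Subgroup G) (x y : H) : ((cm x y : H) : G) = cm (x : G) (y : G) := by
  simp [cm]

/-- `Closed` passes to subgroups -/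
theorem Closed.preimage (H : Subgroup G) {D : Set G} (h : Closed D) :
    Closed ((Subtype.val : H → G) ⁻¹' D) := by
  refine ⟨h.one, ?_, ?_, ?_, ?_, ?_⟩
  · intro x hx
    exact Subtype.ext (h.inv _ hx)
  · intro x hx y hy
    show ((cm x y : H) : G) ∈ D
    rw [coe_cm]
    exact h.cm_mem _ hx _ hy
  · intro x hx y hy
    apply Subtype.ext
    rw [coe_cm, coe_cm]
    exact h.cl2 _ hx _ hy
  · intro x hx y hy z hz
    apply Subtype.ext
    rw [Subgroup.coe_mul]
    simp only [coe_cm]
    exact h.jac _ hx _ hy _ hz
  · intro x hx y hy z hz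
    apply Subtype.ext
    simp only [coe_cm]
    exact h.cl3 _ hx _ hy _ hz

/-- in an infinite finitely generated group there is a normal subgroup of infinite index which is
maximal with this property -/
theorem exists_max_normal (H : Type*) [Group H] [Group.FG H] [Infinite H] :
    ∃ N : Subgroup H, N.Normal ∧ N.index = 0 ∧
      ∀ M : Subgroup H, M.Normal → N < M → M.index ≠ 0 := by
  have hchain : ∀ c ⊆ {N : Subgroup H | N.Normal ∧ N.index = 0}, IsChain (· ≤ ·) c → ∀ y ∈ c,
      ∃ ub ∈ {N : Subgroup H | N.Normal ∧ N.index = 0}, ∀ z ∈ c, z ≤ ub := by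
    intro c hc hch y hy
    have hmem : ∀ x, x ∈ sSup c ↔ ∃ s ∈ c, x ∈ s := fun x =>
      Subgroup.mem_sSup_of_directedOn ⟨y, hy⟩ hch.directedOn
    refine ⟨sSup c, ⟨⟨fun n hn g => ?_⟩, ?_⟩, fun z hz => le_sSup hz⟩
    · rw [hmem] at hn ⊢
      obtain ⟨s, hs, hns⟩ := hn
      exact ⟨s, hs, (hc hs).1.conj_mem n hns g⟩
    · by_contra h0
      haveI : (sSup c).FiniteIndex := ⟨h0⟩
      have hfg : (sSup c).FG := (Group.fg_iff_subgroup_fg _).mp inferInstance
      obtain ⟨T, hT⟩ := hfg
      have key : ∀ T' : Finset H, (∀ t ∈ T', t ∈ sSup c) → ∃ s ∈ c, ∀ t ∈ T', t ∈ s := by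
        classical
        intro T'
        induction T' using Finset.induction_on with
        | empty => exact fun _ => ⟨y, hy, by simp⟩
        | insert t T' _ ih =>
          intro hall
          obtain ⟨s, hs, hs'⟩ := ih fun t ht => hall t (Finset.mem_insert_of_mem ht)
          obtain ⟨r, hr, hr'⟩ := (hmem t).mp (hall t (Finset.mem_insert_self _ _))
          rcases hch.total hs hr with h | h
          · refine ⟨r, hr, fun u hu => ?_⟩
            rcases Finset.mem_insert.mp hu with rfl | hu
            · exact hr'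
            · exact h (hs' u hu)
          · refine ⟨s, hs, fun u hu => ?_⟩
            rcases Finset.mem_insert.mp hu with rfl | hu
            · exact h hr'
            · exact hs' u hu
      obtain ⟨s, hs, hs'⟩ := key T fun t ht => hT ▸ Subgroup.subset_closure ht
      have h1 : sSup c ≤ s := by
        rw [← hT, Subgroup.closure_le]
        exact fun t ht => hs' t ht
      have h2 : s = sSup c := le_antisymm (le_sSup hs) h1
      exact h0 (h2 ▸ (hc hs).2)
  have hbot : (⊥ : Subgroup H) ∈ {N : Subgroup H | N.Normal ∧ N.index = 0} :=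
    ⟨inferInstance, by rw [Subgroup.index_bot, Nat.card_eq_zero_of_infinite]⟩
  obtain ⟨N, -, hN⟩ := zorn_le_nonempty₀ _ hchain ⊥ hbot
  refine ⟨N, hN.prop.1, hN.prop.2, fun M hM hlt h0 => ?_⟩
  exact absurd (hN.le_of_ge ⟨hM, h0⟩ hlt.le) (not_le_of_gt hlt)

/-- a finitely generated group generated by involutions whose centre has finite index is finite -/
theorem finite_of_center_index (Q : Type*) [Group Q] [Group.FG Q] (S : Set Q)
    (hS : Subgroup.closure S = ⊤) (h2 : ∀ x ∈ S, x * x = 1)
    (hZ : (Subgroup.center Q).index ≠ 0) : Finite Q := by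
  haveI : (Subgroup.center Q).FiniteIndex := ⟨hZ⟩
  have hFG : Group.FG (Subgroup.center Q) := inferInstance
  have hcomm : ∀ u v : Subgroup.center Q, u * v = v * u := fun u v =>
    Subtype.ext ((Subgroup.mem_center_iff.mp v.2 (u : Q)))
  have hf : ∀ g : Q, MonoidHom.transferCenterPow Q g * MonoidHom.transferCenterPow Q g = 1 := by
    intro g
    have hg : g ∈ Subgroup.closure S := by rw [hS]; exact Subgroup.mem_top g
    induction hg using Subgroup.closure_induction with
    | mem x hx => rw [← map_mul, h2 x hx, map_one]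
    | one => rw [map_one, mul_one]
    | mul x y _ _ hx hy =>
      rw [map_mul]
      calc _ = MonoidHom.transferCenterPow Q x *
            (MonoidHom.transferCenterPow Q y * MonoidHom.transferCenterPow Q x) *
            MonoidHom.transferCenterPow Q y := by simp only [mul_assoc]
        _ = MonoidHom.transferCenterPow Q x *
            (MonoidHom.transferCenterPow Q x * MonoidHom.transferCenterPow Q y) *
            MonoidHom.transferCenterPow Q y := by rw [hcomm (MonoidHom.transferCenterPow Q y)]
        _ = (MonoidHom.transferCenterPow Q x * MonoidHom.transferCenterPow Q x) *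
            (MonoidHom.transferCenterPow Q y * MonoidHom.transferCenterPow Q y) := by
          simp only [mul_assoc]
        _ = 1 := by rw [hx, hy, mul_one]
    | inv x _ hx => rw [map_inv, ← mul_inv_rev, hx, inv_one]
  have htor : ∀ z : Subgroup.center Q, z ^ ((Subgroup.center Q).index * 2) = 1 := by
    intro z
    have h1 := hf z
    have h3 : MonoidHom.transferCenterPow Q z = z ^ (Subgroup.center Q).index := by
      apply Subtype.ext
      rw [MonoidHom.transferCenterPow_apply]
      simp
    rw [h3] at h1
    rw [pow_mul, pow_two]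
    exact h1
  have hfin : Finite (Subgroup.center Q) := by
    refine @CommGroup.finite_of_fg_isMulTorsion (Subgroup.center Q)
      { (inferInstance : Group (Subgroup.center Q)) with mul_comm := hcomm } hFG ?_
    intro z
    rw [isOfFinOrder_iff_pow_eq_one]
    exact ⟨_, Nat.mul_pos (Nat.pos_of_ne_zero hZ) (by norm_num), htor z⟩
  apply Nat.finite_of_card_ne_zero
  rw [← (Subgroup.center Q).card_mul_index]
  exact mul_ne_zero Nat.card_pos.ne' hZ

theorem finite_closure_of_closed (D : Set G) (h : Closed D) (S : Set G) (hS : S.Finite) (hSD : S ⊆ D) :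
    Finite (Subgroup.closure S) := by
  by_contra hinf
  haveI : Infinite (Subgroup.closure S) := not_finite_iff_infinite.mp hinf
  haveI : Group.FG (Subgroup.closure S) :=
    (Group.fg_iff_subgroup_fg _).mpr ⟨hS.toFinset, by simp⟩
  obtain ⟨N, hN, hi, hmax⟩ := exists_max_normal (Subgroup.closure S)
  haveI : Infinite (Subgroup.closure S ⧸ N) := Subgroup.index_eq_zero_iff_infinite.mp hi
  set S' : Set (Subgroup.closure S) := Subtype.val ⁻¹' S with hS'
  have hS'fin : S'.Finite := hS.preimage Subtype.val_injective.injOn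
  have hS'cl : Subgroup.closure S' = ⊤ := Subgroup.closure_closure_coe_preimage
  set D2 : Set (Subgroup.closure S ⧸ N) :=
    QuotientGroup.mk' N '' ((Subtype.val : Subgroup.closure S → G) ⁻¹' D) with hD2
  have hc2 : Closed D2 := (h.preimage (Subgroup.closure S)).image _
  have hT : (QuotientGroup.mk' N '' S').Finite := hS'fin.image _
  have hTcl : Subgroup.closure (QuotientGroup.mk' N '' S') = ⊤ := by
    rw [← MonoidHom.map_closure, hS'cl, ← MonoidHom.range_eq_map, MonoidHom.range_eq_top]
    exact QuotientGroup.mk'_surjective N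
  have hTD : QuotientGroup.mk' N '' S' ⊆ D2 := by
    rintro _ ⟨x, hx, rfl⟩
    exact ⟨x, hSD hx, rfl⟩
  obtain ⟨d, a, -, ha⟩ := hT.fin_param
  have hZ : Subgroup.center (Subgroup.closure S ⧸ N) = ⊥ := by
    by_contra hne
    have hlt : N < (Subgroup.center (Subgroup.closure S ⧸ N)).comap (QuotientGroup.mk' N) := by
      refine lt_of_le_of_ne ?_ ?_
      · intro x hx
        rw [Subgroup.mem_comap]
        have : QuotientGroup.mk' N x = 1 := (QuotientGroup.eq_one_iff x).mpr hx
        rw [this]
        exact Subgroup.one_mem _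
      · intro heq
        apply hne
        rw [Subgroup.eq_bot_iff_forall]
        intro z hz
        obtain ⟨x, rfl⟩ := QuotientGroup.mk'_surjective N z
        have hx : x ∈ N := by
          rw [heq]
          exact hz
        exact (QuotientGroup.eq_one_iff x).mpr hx
    have hidx := hmax _ inferInstance hlt
    rw [Subgroup.index_comap_of_surjective _ (QuotientGroup.mk'_surjective N)] at hidx
    have hfin := finite_of_center_index _ _ hTcl (fun x hx => hc2.inv x (hTD hx)) hidx
    exact not_finite (Subgroup.closure S ⧸ N)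
  have hone := word_arg a D2 hc2 (fun i => hTD (ha ▸ Set.mem_range_self i)) (by rw [ha, hTcl]) hZ
  have htriv : Subgroup.closure (QuotientGroup.mk' N '' S') = ⊥ := by
    rw [Subgroup.closure_eq_bot_iff]
    intro x hx
    exact hone x (hTD hx)
  rw [hTcl] at htriv
  have hsub : Subsingleton (Subgroup.closure S ⧸ N) := by
    refine ⟨fun x y => ?_⟩
    have hx : x ∈ (⊥ : Subgroup (Subgroup.closure S ⧸ N)) := htriv ▸ Subgroup.mem_top x
    have hy : y ∈ (⊥ : Subgroup (Subgroup.closure S ⧸ N)) := htriv ▸ Subgroup.mem_top y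
    rw [Subgroup.mem_bot.mp hx, Subgroup.mem_bot.mp hy]
  exact not_finite (Subgroup.closure S ⧸ N)

/-- HT: Hadjievangelou-Traustason for involutions. -/
theorem ht (D : Set G) (h : Strong D) (S : Set G) (hS : S.Finite) (hSD : S ⊆ D) :
    Finite (Subgroup.closure S) := by
  obtain ⟨D', hD, _, hc⟩ := exists_closed D h
  exact finite_closure_of_closed D' hc S hS (hSD.trans hD)

end Pool.Agent.Helper39.HT
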